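import Mathlib
import Pool.Agent.H57.Cyc.Main

set_option autoImplicit false

namespace Pool.Agent.Results.MP_dd35e7_an.CyclicityFails

open Pool.Agent.H57.Cyc Metric

/-- For every `p > 2` there is a zero-free analytic function `f = exp g` on the unit disc with
`f` and `g = log f` both in `D^p_{p-1}` which is not cyclic in `D^p_{p-1}`. Moreover `f` can be
taken inner: `|f| ≤ 1` on the disc and the circle means of `|f|^2` come arbitrarily close to `1`
(that is, the `H^∞` norm is at most `1` and the `H^2` norm equals `1`). -/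
theorem result : ∀ p : ℝ, 2 < p →
    ∃ f g : ℂ → ℂ, MemD p f ∧ MemD p g ∧ (∀ z ∈ ball (0 : ℂ) 1, f z = Complex.exp (g z)) ∧
      (∀ z ∈ ball (0 : ℂ) 1, ‖f z‖ ≤ 1) ∧
      (∀ ε > 0, ∃ r : ℝ, 0 ≤ r ∧ r < 1 ∧
        1 - ε < Real.circleAverage (fun z => ‖f z‖ ^ 2) 0 r) ∧
      ¬ IsCyclicD p f :=
  fun _ hp => main hp

end Pool.Agent.Results.MP_dd35e7_an.CyclicityFails
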